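import Mathlib

/-!
# Families of complex spaces: the definitions of the statement

A complex space is a topological space `X` together with the predicate `O f x`: the function
`f : X → ℂ` is holomorphic near the point `x`. All complex spaces here are reduced.
-/

set_option autoImplicit false

namespace Pool.Agent.KO

open Set Filter Topology

/-- The structure sheaf of a reduced complex space: `O f x` says that `f` is holomorphic
near `x`. -/
abbrev Shf (X : Type) : Type := (X → ℂ) → X → Prop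

/-- The structure sheaf of `ℂ^n`. -/
def stdO (n : ℕ) : Shf (Fin n → ℂ) := fun f x => AnalyticAt ℂ f x

/-- The structure sheaf induced on a subset: restrictions of holomorphic functions. -/
def res {X : Type} [TopologicalSpace X] (O : Shf X) (S : Set X) : Shf S := fun f x =>
  ∃ F : X → ℂ, O F x ∧ ∀ᶠ y in 𝓝 x, f y = F y

/-- `A` is a closed analytic subset of the open set `Ω`. -/
def IsAn {X : Type} [TopologicalSpace X] (O : Shf X) (Ω A : Set X) : Prop :=
  A ⊆ Ω ∧ ∀ x ∈ Ω, ∃ V, IsOpen V ∧ x ∈ V ∧ ∃ (k : ℕ) (F : Fin k → X → ℂ),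
    (∀ i, ∀ y ∈ V, O (F i) y) ∧ A ∩ V = {y | y ∈ V ∧ ∀ i, F i y = 0}

section

variable {X : Type} [TopologicalSpace X]

/-- `c` identifies the open set `U` with a closed analytic subset of the open set `Ω` of `ℂ^N`,
and the holomorphic functions on `U` with the restrictions of holomorphic functions. -/
structure IsChart (O : Shf X) {N : ℕ} (U : Set X) (c : X → Fin N → ℂ)
    (Ω : Set (Fin N → ℂ)) : Prop where
  isOpen : IsOpen U
  isOpenΩ : IsOpen Ω
  isEmbedding : IsEmbedding (fun x : U => c x)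
  isAn : IsAn (stdO N) Ω (c '' U)
  hol : ∀ x ∈ U, ∀ f : X → ℂ, O f x ↔
    ∃ F : (Fin N → ℂ) → ℂ, AnalyticAt ℂ F (c x) ∧ f =ᶠ[𝓝 x] F ∘ c

/-- Reduced complex spaces: locally closed analytic subsets of open sets of `ℂ^N`. -/
def IsSpace (O : Shf X) : Prop :=
  ∀ x, ∃ (N : ℕ) (U : Set X) (c : X → Fin N → ℂ) (Ω : Set (Fin N → ℂ)), x ∈ U ∧ IsChart O U c Ω

/-- `c` is a system of `n` local coordinates at the manifold point `x`. -/
def IsCoord (O : Shf X) {n : ℕ} (c : X → Fin n → ℂ) (x : X) : Prop :=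
  ∃ U : Set X, x ∈ U ∧ IsChart O U c (c '' U)

/-- `x` is a manifold point, of dimension `n`. -/
def IsReg (O : Shf X) (n : ℕ) (x : X) : Prop := ∃ c : X → Fin n → ℂ, IsCoord O c x

/-- Normal complex space of pure dimension `n`: the manifold points, all of dimension `n`, are
dense, and holomorphic functions on the manifold part of an open set extend to this open set. -/
def IsNormal (O : Shf X) (n : ℕ) : Prop :=
  (∀ m x, IsReg O m x → m = n) ∧ (∀ x, x ∈ closure {y | IsReg O n y}) ∧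
    ∀ V : Set X, IsOpen V → ∀ f : X → ℂ, (∀ y ∈ V, IsReg O n y → O f y) →
      ∃ F : X → ℂ, (∀ y ∈ V, O F y) ∧ ∀ y ∈ V, IsReg O n y → F y = f y

/-- An `r`-fold canonical form on the manifold part of `V`: `val c y` is its coefficient at `y`
with respect to the local coordinates `c`, that is, the form is `val c · (dc₁ ∧ ⋯ ∧ dcₙ)^r`. -/
structure CForm (O : Shf X) (n r : ℕ) (V : Set X) where
  val : (X → Fin n → ℂ) → X → ℂ
  hol : ∀ c, ∀ y ∈ V, IsCoord O c y → O (val c) y
  tr : ∀ c c', ∀ y ∈ V, IsCoord O c y → IsCoord O c' y → ∀ Ψ : (Fin n → ℂ) → (Fin n → ℂ),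
    AnalyticAt ℂ Ψ (c y) → c' =ᶠ[𝓝 y] Ψ ∘ c → val c y = val c' y * (fderiv ℂ Ψ (c y)).det ^ r

/-- The form has no zeros: it generates `r K` on the manifold part of `V`. -/
def CForm.IsGen {O : Shf X} {n r : ℕ} {V : Set X} (θ : CForm O n r V) : Prop :=
  ∀ c, ∀ y ∈ V, IsCoord O c y → θ.val c y ≠ 0

/-- The pull-back of the form by the holomorphic map `φ : B → V`, `B` open in `ℂ^n`, is
holomorphic on `B` (it is defined at the points that are mapped to manifold points). -/
def CForm.PullHol {O : Shf X} {n r : ℕ} {V : Set X} (θ : CForm O n r V) (B : Set (Fin n → ℂ))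
    (φ : (Fin n → ℂ) → X) : Prop :=
  ∃ h : (Fin n → ℂ) → ℂ, AnalyticOnNhd ℂ h B ∧ ∀ b ∈ B, ∀ c, IsCoord O c (φ b) →
    h b = θ.val c (φ b) * (fderiv ℂ (c ∘ φ) b).det ^ r

/-- Holomorphic maps. -/
def HolAt {Y : Type} [TopologicalSpace Y] (O : Shf X) (O' : Shf Y) (φ : X → Y) (x : X) : Prop :=
  ContinuousAt φ x ∧ ∀ f, O' f (φ x) → O (f ∘ φ) x

/-- Canonical singularities, pure dimension `n`: normal, `K` is `ℚ`-Cartier, and the pull-backs of
the local generators of `r K` to `n`-dimensional manifolds are holomorphic. -/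
def IsCanonical (O : Shf X) (n : ℕ) : Prop :=
  IsNormal O n ∧ ∀ x, ∃ (r : ℕ) (V : Set X), 1 ≤ r ∧ IsOpen V ∧ x ∈ V ∧
    ∃ θ : CForm O n r V, θ.IsGen ∧
      ∀ (B : Set (Fin n → ℂ)) (φ : (Fin n → ℂ) → X), IsOpen B →
        (∀ b ∈ B, φ b ∈ V ∧ HolAt (stdO n) O φ b) → B ⊆ closure {b | b ∈ B ∧ IsReg O n (φ b)} →
        θ.PullHol B φ

/-- `g` is flat over the disc (a smooth curve): `g - g x` is not a zero divisor. -/
def IsFlat (O : Shf X) (g : X → ℂ) : Prop :=
  ∀ x f, O f x → (∀ᶠ y in 𝓝 x, (g y - g x) * f y = 0) → ∀ᶠ y in 𝓝 x, f y = 0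

/-- The fibre of `g` over `s` is reduced: functions vanishing on it are divisible by `g - s`. -/
def RedFib (O : Shf X) (g : X → ℂ) (s : ℂ) : Prop :=
  ∀ x, g x = s → ∀ f, O f x → (∀ᶠ y in 𝓝 x, g y = s → f y = 0) →
    ∃ h, O h x ∧ ∀ᶠ y in 𝓝 x, f y = (g y - s) * h y

/-- The fibre over `s` is a (reduced) space with canonical singularities. -/
def CanonFib (O : Shf X) (g : X → ℂ) (s : ℂ) (n : ℕ) : Prop :=
  RedFib O g s ∧ IsCanonical (res O {x | g x = s}) n

end

/-- Projective space. -/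
abbrev PN (N : ℕ) : Type := Projectivization ℂ (Fin (N + 1) → ℂ)

/-- The quotient topology of projective space. -/
instance (N : ℕ) : TopologicalSpace (PN N) :=
  inferInstanceAs (TopologicalSpace (Quotient (projectivizationSetoid ℂ (Fin (N + 1) → ℂ))))

/-- The structure sheaf of `ℙ^N × ℂ`. -/
def stdP (N : ℕ) : Shf (PN N × ℂ) := fun f p =>
  ∃ F : (Fin (N + 1) → ℂ) × ℂ → ℂ, AnalyticAt ℂ F (p.1.rep, p.2) ∧
    ∀ᶠ q in 𝓝 (p.1.rep, p.2), ∀ h : q.1 ≠ 0, f (Projectivization.mk ℂ q.1 h, q.2) = F q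

/-- The part of `ℙ^N × ℂ` over the disc of radius `r`. -/
def overDisc (N : ℕ) (r : ℝ) : Set (PN N × ℂ) := {p | ‖p.2‖ < r}

/-- Isomorphisms of complex spaces. -/
structure CIso {X Y : Type} [TopologicalSpace X] [TopologicalSpace Y] (O : Shf X)
    (O' : Shf Y) extends X ≃ₜ Y where
  hol : ∀ f x, O' f (toFun x) ↔ O (f ∘ toFun) x

/-- A bimeromorphic map over the disc of radius `r` from the family `g : X → ℂ` to the projective
family `S ⊆ ℙ^N × ℂ`: an isomorphism `e` outside of the nowhere dense closed analytic sets `A`,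
`A'`, given locally on `X` by `N + 1` holomorphic functions. -/
structure Bimer {X : Type} [TopologicalSpace X] (O : Shf X) (g : X → ℂ) (r : ℝ) {N : ℕ}
    (S : Set (PN N × ℂ)) where
  A : Set X
  A' : Set (PN N × ℂ)
  anA : IsAn O {x | ‖g x‖ < r} A
  anA' : IsAn (stdP N) (overDisc N r) A'
  denseA : {x | ‖g x‖ < r} ⊆ closure ({x | ‖g x‖ < r} \ A)
  denseA' : S ⊆ closure (S \ A')
  e : CIso (res O ({x | ‖g x‖ < r} \ A)) (res (stdP N) (S \ A'))
  base : ∀ x, (e.toFun x).1.2 = g x
  mero : ∀ x, ‖g x‖ < r → ∃ (V : Set X) (F : Fin (N + 1) → X → ℂ), IsOpen V ∧ x ∈ V ∧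
    (∀ i, ∀ y ∈ V, O (F i) y) ∧ V ⊆ closure {y | y ∈ V ∧ (F · y) ≠ 0} ∧
    ∀ y (hy : y ∈ {x | ‖g x‖ < r} \ A), y ∈ V → ∀ h : (F · y) ≠ 0,
      (e.toFun ⟨y, hy⟩).1.1 = Projectivization.mk ℂ (F · y) h

/-- The bimeromorphic map restricts to a bimeromorphic map of each fibre. -/
def Bimer.Fiberwise {X : Type} [TopologicalSpace X] {O : Shf X} {g : X → ℂ} {r : ℝ} {N : ℕ}
    {S : Set (PN N × ℂ)} (b : Bimer O g r S) : Prop :=
  ∀ s : ℂ, ‖s‖ < r → {x | g x = s} ⊆ closure ({x | g x = s} \ b.A) ∧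
    {p | p ∈ S ∧ p.2 = s} ⊆ closure ({p | p ∈ S ∧ p.2 = s} \ b.A')

/-- Moishezon morphisms to the unit disc: bimeromorphic to a projective one. -/
def IsMoishezon {X : Type} [TopologicalSpace X] (O : Shf X) (g : X → ℂ) : Prop :=
  ∃ (N : ℕ) (S : Set (PN N × ℂ)), IsAn (stdP N) (overDisc N 1) S ∧ Nonempty (Bimer O g 1 S)

/-- `g : X → Δ` is a proper flat Moishezon morphism of a complex space to the unit disc. -/
structure IsFamily {X : Type} [TopologicalSpace X] (O : Shf X) (g : X → ℂ) : Prop where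
  t2 : T2Space X
  second : SecondCountableTopology X
  space : IsSpace O
  hol : ∀ x, O g x
  disc : ∀ x, ‖g x‖ < 1
  proper : ∀ r < 1, IsCompact {x | ‖g x‖ ≤ r}
  flat : IsFlat O g
  moishezon : IsMoishezon O g

/-- The closed analytic subset `S` of `ℙ^N × Δ_r` is a flat projective family over the disc
`Δ_r` of radius `r`, whose central fibre has canonical singularities of dimension `n`. (Nothing
is assumed on the other fibres and on the canonical class of the total space.) -/
structure IsGoodModel {N : ℕ} (r : ℝ) (S : Set (PN N × ℂ)) (n : ℕ) : Prop where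
  an : IsAn (stdP N) (overDisc N r) S
  flat : IsFlat (res (stdP N) S) (fun p => p.1.2)
  canon : CanonFib (res (stdP N) S) (fun p => p.1.2) 0 n

/-- There is a proper flat Moishezon family over the disc whose central fibre has canonical
singularities, and which over no disc of radius `r ≤ 1` is fiberwise bimeromorphic to a flat
projective family with canonical central fibre. -/
def Statement : Prop :=
  ∃ (X : Type) (_ : TopologicalSpace X) (O : Shf X) (g : X → ℂ), IsFamily O g ∧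
    CanonFib O g 0 3 ∧
    ∀ r : ℝ, 0 < r → r ≤ 1 → ∀ (N : ℕ) (S : Set (PN N × ℂ)), IsGoodModel r S 3 →
      ∀ b : Bimer O g r S, ¬ b.Fiberwise

end Pool.Agent.KO
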